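import Pool.Agent.Helper30_PSS.GFP
import Pool.Agent.Helper63_PSS.BKF
import Pool.Agent.Helper20_PSS.FPX
import Pool.Agent.Helper92_PSS.FCO
import Pool.Agent.Helper77_PSS.FBK
import Pool.Agent.Helper52_PSS.FTR
import Pool.Agent.Helper6_PSS.BKI
import Pool.Agent.Helper91_PSS.RES
import Pool.Agent.Helper10_PSS.RFD
import Pool.Agent.Helper95_PSS.IND
import Pool.Agent.Helper80_PSS.ZRT
import Pool.Agent.Helper5_PSS.TRS
import Pool.Agent.Helper52_PSS.RFS
import Pool.Agent.Helper41_PSS.RFO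
import Pool.Agent.Helper70_PSS.BQX
import Pool.Agent.Helper21_PSS.LMB
import Pool.Agent.Helper70_PSS.SFQ
import Pool.Agent.Helper64_PSS.MCK
import Pool.Agent.Helper65_PSS.BPU
import Pool.Agent.Helper62_PSS.BBK
import Pool.Agent.Helper84_PSS.BCL
import Pool.Agent.Helper28_PSS.VAN
import Pool.Agent.Helper92_PSS.BLS
import Pool.Agent.Helper5_PSS.DIV
import Pool.Agent.Helper63_PSS.RDX
import Pool.Agent.Helper41_PSS.QBK
import Pool.Agent.Helper27_PSS.TFX
import Pool.Agent.Helper63_PSS.UNX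
import Pool.Agent.Helper13_PSS.IDN
import Pool.Agent.Helper10_PSS.UNW
import Pool.Agent.Helper41_PSS.PRQ
import Pool.Agent.Helper64_PSS.GFB
import Pool.Agent.Helper91_PSS.GFQ
import Pool.Agent.Helper28_PSS.BLK
import Pool.Agent.Helper22_PSS.GFC

/-!
# Squad PSS, blocks S0 and S3 without hypotheses
-/

set_option autoImplicit false

namespace Pool.Agent.PSS.All30

open Pool.Agent.PSS

theorem bkf : S0.BkfStmt := S0.H63.bkf
theorem fpx : S0.FpxStmt := H20.fpx
theorem fco : S0.FcoStmt := S0.H92.fco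
theorem fbk : S0.FbkStmt := S0.H77.fbk fpx
theorem ftr : S0.FtrStmt := H52.ftr fco fpx
theorem bki : S0.BkiStmt := S0.H6.bki
theorem res : S0.ResStmt := H91.res
theorem rfd : S0.RfdStmt := S0.H10.rfd
theorem ind : S0.IndStmt := S0.H95.ind
theorem zrt : S0.ZrtStmt := S0.H80.zrt
theorem trs : S0.TrsStmt := S0.H5.trs
theorem rfs : S0.RfsStmt := S0.H52.rfs
theorem rfo : S0.RfoStmt := S0.H41.rfo
theorem bqx : S0.BqxStmt := S0.H70.bqx
theorem lmb : S0.LmbStmt := H21.LMB.lmb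
theorem sfq : S0.SfqStmt := S0.H70.sfq
theorem mck : S0.MckStmt := H64.mck rfd ind rfo sfq fpx
theorem bpu : S0.BpuStmt := H65.bpu sfq lmb rfd rfo
theorem bbk : S0.BbkStmt := S0.H62.bbk fco fbk sfq lmb rfd
theorem bcl : S0.BclStmt := S0.H84.bcl mck bpu bbk
theorem van : S3.VanStmt := H28.van
theorem bls : S3.BlsStmt := S3.H92.bls van ftr rfs trs
theorem div : S3.DivStmt := S3.H5.div rfs ind
theorem rdx : S3.RdxStmt := S3.H63.rdx
theorem qbk : S3.QbkStmt := S3.H41.qbk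
theorem tfx : S3.TfxStmt := S3.H27.tfx fco fbk
theorem unx : S3.UnxStmt := S3.H63.unx
theorem idn : S3.IdnStmt := S3.H13.idn bki fco fbk
theorem unw : S3.UnwStmt := H10.unw div rdx qbk tfx unx idn mck bqx bpu zrt bki bkf res
theorem prq : S3.PrqStmt := S3.H41.prq qbk tfx bcl bpu mck res fco fpx zrt
theorem gfb : S3.GfbStmt := H64.gfb
theorem gfq : S3.GfqStmt := H91.Gfq.gfq gfb fpx lmb
theorem blk : S3.BlkStmt := H28.blk bls unw prq gfb gfq bqx fco fbk

/-- THE GENERIC FIBRE IS IN THE CLASS (block S3 of (S)) -/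
theorem gfc : S3.GfcStmt := H22.gfc blk gfb

/-- THE GENERIC FIBRE IS IN THE CLASS, general form (block S3 of (S+)) -/
theorem gfp : S3.GfpStmt := S3.H30.gfp bls gfb gfq bqx bpu mck zrt fco fbk

end Pool.Agent.PSS.All30
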