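import Pool.Agent.PSS.StmtsS3p
import Pool.Agent.Helper41_PSS.PRQ
import Pool.Agent.Helper28_PSS.BLK

/-!
# Theorem (S+), block S3, row GFP: the generic fibre is in the class, general form
-/

set_option autoImplicit false

open scoped BigOperators TensorProduct PowerSeries

noncomputable section

namespace Pool.Agent.PSS.S3.H30

open Pool.Agent.PFC (tw IsTv)
open Pool.Agent.PFD.D2b (FrR)
open Pool.Agent.PSS.S0
open Pool.Agent.PSS.S3.H41 (fx_one fx_of_comm fx_al bq_zero exists_T)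
open Pool.Agent.PSS.H28 (bk_up fx_mono)

/-- unit plus nilpotent -/
theorem unit_add_nil {B : Type} [Ring B] {a n : B} (ha : IsUnit a) (hn : IsNilpotent n)
    (hc : a * n = n * a) : IsUnit (a + n) := by
  have h : Commute n a := hc.symm
  obtain ⟨u, rfl⟩ := ha
  have h1 : Commute (↑u⁻¹ : B) n := (h.symm.units_inv_left)
  have h2 : IsNilpotent ((↑u⁻¹ : B) * n) := h1.isNilpotent_mul_left hn
  have h3 : (u : B) + n = u * (1 + ↑u⁻¹ * n) := by
    rw [mul_add, mul_one, ← mul_assoc, Units.mul_inv, one_mul]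
  rw [h3]
  exact u.isUnit.mul h2.isUnit_one_add

theorem gfp (hBLS : BlsStmt) (hGFB : GfbStmt) (hGFQ : GfqStmt) (hBQX : BqxStmt) (hBPU : BpuStmt)
    (hMCK : MckStmt) (hZRT : ZrtStmt) (hFCO : FcoStmt) (hFBK : FbkStmt) : GfpStmt := by
  intro ℓ _ F F' W E As K _ _ _ _ _ _ _ _ _ _ _ _ ψ γ lam x y hinj hW hE hper0 huni0 hrf0 hunt hN
  classical
  obtain ⟨⟨lamS, hlamS, hrf⟩, hper, huni, -⟩ := hGFB F⟦X⟧ F' W E As K ψ γ lam x y hrf0 hper0 huni0
  have hℓF' : (ℓ : F') = 0 := CharP.cast_eq_zero F' ℓ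
  have hℓF : (ℓ : F) = 0 := CharP.cast_eq_zero F ℓ
  have hℓX : (ℓ : F⟦X⟧) = 0 := by
    rw [← map_natCast (PowerSeries.C (R := F)), hℓF, map_zero]
  have hX : algebraMap F⟦X⟧ F' PowerSeries.X ≠ 0 := by
    intro h
    exact PowerSeries.X_ne_zero (hinj (h.trans (map_zero _).symm))
  obtain ⟨m, u, hu⟩ := hunt
  have hXm : algebraMap F⟦X⟧ F' (PowerSeries.X ^ m) ≠ 0 := by
    rw [map_pow]
    exact pow_ne_zero _ hX
  -- torsion freeness
  have htf : ∀ (n : ℕ) (a : As), (PowerSeries.X ^ n : F⟦X⟧) • a = 0 → a = 0 := by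
    obtain ⟨Ω, _, _, b, c, hfr, -⟩ := hper0
    intro n a ha
    rw [← hfr.2.2 a]
    refine Finset.sum_eq_zero fun ω _ => ?_
    have h1 : c ω ((PowerSeries.X ^ n : F⟦X⟧) • a) = 0 := by rw [ha, map_zero]
    rw [map_smul, smul_eq_mul] at h1
    rw [(mul_eq_zero.1 h1).resolve_left (pow_ne_zero _ PowerSeries.X_ne_zero), zero_smul]
  set r1 : As := ∑ k, x k * y k with hr1
  have hr1c : ∀ c : As, c * r1 = r1 * c := by
    intro c
    have h1 := hZRT F⟦X⟧ W As K γ lam x y hrf0 1 fx_one c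
    simp only [mul_one] at h1
    exact h1
  have huc : ∀ c : As, c * u = u * c := by
    intro c
    have h2 : (c * u - u * c) * r1 = 0 := by
      rw [sub_mul, mul_assoc, hu, mul_assoc, hr1c, ← mul_assoc, hu, mul_smul_comm, mul_one,
        smul_mul_assoc, one_mul, sub_self]
    have h3 : (PowerSeries.X ^ m : F⟦X⟧) • (c * u - u * c) = 0 := by
      have h4 : (c * u - u * c) * (u * r1) = 0 := by
        rw [show u * r1 = r1 * u from hr1c u, ← mul_assoc, h2, zero_mul]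
      rwa [hu, mul_smul_comm, mul_one] at h4
    exact sub_eq_zero.1 (htf m _ h3)
  refine ⟨?_, hper, huni, ⟨lamS, K, inferInstance, _, _, hrf, ?_⟩, ?_⟩
  · obtain ⟨Ω, _, _, b, c, hfr, -⟩ := hper
    refine ⟨Submodule.fg_def.2 ⟨Set.range b, Set.finite_range b, ?_⟩⟩
    rw [eq_top_iff]
    rintro m -
    rw [← hfr.2.2 m]
    exact Submodule.sum_mem _ fun t _ => Submodule.smul_mem _ _ (Submodule.subset_span ⟨t, rfl⟩)
  · refine ⟨(algebraMap F⟦X⟧ F' (PowerSeries.X ^ m))⁻¹ ⊗ₜ[F⟦X⟧] u, ?_⟩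
    have e1 : ∑ k, (1 : F') ⊗ₜ[F⟦X⟧] x k * (1 : F') ⊗ₜ[F⟦X⟧] y k =
        (1 : F') ⊗ₜ[F⟦X⟧] r1 := by
      rw [hr1, TensorProduct.tmul_sum]
      refine Finset.sum_congr rfl fun k _ => ?_
      rw [Algebra.TensorProduct.tmul_mul_tmul, one_mul]
    rw [e1, Algebra.TensorProduct.tmul_mul_tmul, hu, mul_one, TensorProduct.tmul_smul,
      TensorProduct.smul_tmul', Algebra.smul_def, mul_inv_cancel₀ hXm]
    rfl
  · intro Q
    induction Q using WellFoundedGT.induction with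
    | ind Q ih =>
    intro e he hid hcen htop
    by_cases hQ : Q = ⊤
    · rw [hQ]
      exact htop
    have hup : ∀ Q' : Subgroup W, Q < Q' →
        e ∈ BKR (cw F' (bcw (R := F⟦X⟧) (S := F') γ)) Q' := by
      intro Q' hQ'
      have heQ' : e ∈ FxR (cw F' (bcw (R := F⟦X⟧) (S := F') γ)) Q' := fx_mono _ le_top he
      refine ih Q' hQ' e he ?_ ?_ htop
      · exact bk_up _ hFCO hFBK ℓ hℓF' hW ψ hper hQ'.le hid
          (Submodule.sub_mem _ (H28.fx_mul _ Q' heQ' heQ') heQ')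
      · intro a ha
        exact bk_up _ hFCO hFBK ℓ hℓF' hW ψ hper hQ'.le (hcen a (fx_mono _ hQ'.le ha))
          (Submodule.sub_mem _ (H28.fx_mul _ Q' heQ' ha) (H28.fx_mul _ Q' ha heQ'))
    obtain ⟨w, hw⟩ : ∃ w, w ∉ Q := by
      by_contra h
      push Not at h
      exact hQ (eq_top_iff.2 fun w _ => h w)
    obtain ⟨Bs, _, _, γB, βs, hBs⟩ := hBQX F⟦X⟧ W As γ Q
    obtain ⟨D, _, _, γD, βD, hDq⟩ := hBQX F' W (F' ⊗[F⟦X⟧] As) (bcw (R := F⟦X⟧) (S := F') γ) Q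
    obtain ⟨E1, hE1⟩ : ∃ E1 : Subgroup E, ∀ e, e ∈ E1 ↔ ∀ u ∈ Q, ψ e u = u :=
      ⟨{ carrier := {e | ∀ u ∈ Q, ψ e u = u}
         one_mem' := fun u _ => by rw [map_one]; rfl
         mul_mem' := fun {a b} ha hb u hu => by
           rw [map_mul, MulAut.mul_apply, hb u hu, ha u hu]
         inv_mem' := fun {a} ha u hu => by
           have h1 := ha u hu
           rw [map_inv]
           calc (ψ a)⁻¹ u = (ψ a)⁻¹ (ψ a u) := by rw [h1]
             _ = u := MulAut.inv_apply_self _ (ψ a) u }, fun e => Iff.rfl⟩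
    obtain ⟨-, -, lamB, KB, _, xB, yB, hrfB, hlamB⟩ := hBPU ℓ F⟦X⟧ W E As Bs K ψ γ Q γB βs lam
      x y E1 hℓX hW hper0 huni0 hrf0 hBs hE1
    -- `rtB(1)` divides `X ^ m`
    have hufx : u ∈ FxR (cw F⟦X⟧ γ) Q := fx_of_comm fun v => huc _
    have hr1fx : r1 ∈ FxR (cw F⟦X⟧ γ) Q := fx_of_comm fun v => hr1c _
    choose n n' hn1 hn2 hn3 using huni0
    obtain ⟨T, hT1, hT2⟩ := exists_T E1
    have hT3 : ∀ e : E, ∃! t, t ∈ T ∧ ∀ v ∈ Q, (ψ t)⁻¹ v = (ψ e)⁻¹ v := by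
      intro e
      have h1 : ∀ t : E, (∀ v ∈ Q, (ψ t)⁻¹ v = (ψ e)⁻¹ v) ↔ t * e⁻¹ ∈ E1 := by
        intro t
        rw [hE1]
        refine forall₂_congr fun v _ => ?_
        rw [map_mul, map_inv, MulAut.mul_apply]
        constructor
        · intro h
          rw [← h, MulAut.apply_inv_self]
        · intro h
          conv_lhs => rw [← h]
          rw [MulAut.inv_apply_self]
      simp only [h1]
      exact hT2 e
    have h1 := hMCK ℓ F⟦X⟧ W E As Bs K KB ψ γ Q γB βs lam x y lamB xB yB n n' T hℓX hW hper0 hrf0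
      hBs hrfB hlamB (fun e => ⟨hn1 e, hn2 e, hn3 e⟩) hT3 1 fx_one
    simp only [mul_one, hn1, hBs.one] at h1
    rw [Finset.sum_const] at h1
    have h2 : βs u * βs r1 = (PowerSeries.X ^ m : F⟦X⟧) • (1 : Bs) := by
      rw [← hBs.mul _ hufx _ hr1fx, hu, hBs.smul _ _ fx_one, hBs.one]
    set rB : Bs := ∑ k, xB k * yB k with hrB
    set rw' : Bs := ∑ k, xB k * γB w * yB k with hrw
    rw [← hr1] at h1
    rw [h1] at h2
    obtain ⟨κ, lamD, -, hκs, hκw, hrfD⟩ :=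
      hGFQ ℓ F⟦X⟧ F' W E As Bs D K KB ψ γ lam x y Q γB βs γD βD lamB xB yB hℓX hW hrf0 hper0
        (fun e => ⟨n e, n' e, hn1 e, hn2 e, hn3 e⟩) hBs hDq hrfB hlamB
    have hrBc : ∀ c : Bs, c * rB = rB * c := by
      intro c
      have h3 := hZRT F⟦X⟧ W Bs KB γB lamB xB yB hrfB 1 fx_one c
      simp only [mul_one] at h3
      exact h3
    -- `κ rB` is a unit
    have h3 : (T.card • βs u) * rB = (PowerSeries.X ^ m : F⟦X⟧) • (1 : Bs) := by
      rw [← h2, smul_mul_assoc, mul_smul_comm]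
    have h4 : κ (T.card • βs u) * κ rB = algebraMap F⟦X⟧ F' (PowerSeries.X ^ m) • (1 : D) := by
      rw [← map_mul, h3, hκs, map_one]
    have h5 : IsUnit (κ rB) := by
      have h6 : ((algebraMap F⟦X⟧ F' (PowerSeries.X ^ m))⁻¹ • κ (T.card • βs u)) * κ rB = 1 := by
        rw [smul_mul_assoc, h4, smul_smul, inv_mul_cancel₀ hXm, one_smul]
      have h7 : κ rB * ((algebraMap F⟦X⟧ F' (PowerSeries.X ^ m))⁻¹ • κ (T.card • βs u)) = 1 := by
        rw [mul_smul_comm, ← map_mul, ← hrBc, map_mul, h4, smul_smul, inv_mul_cancel₀ hXm, one_smul]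
      exact ⟨⟨_, _, h7, h6⟩, rfl⟩
    have h8 : IsUnit (κ rw') := by
      have h9 := hN Q Bs KB γB βs lamB xB yB hBs hrfB hlamB w
      have h10 : rw' = rB + (rw' - rB) := by abel
      rw [h10, map_add]
      refine unit_add_nil h5 (h9.map κ) ?_
      rw [← map_mul, ← map_mul, hrBc]
    have hz := hBLS ℓ F' W E (F' ⊗[F⟦X⟧] As) D KB ψ (bcw (R := F⟦X⟧) (S := F') γ) Q γD βD lamD
      (fun k => κ (xB k)) (fun k => κ (yB k)) e w hℓF' hW hper hDq hrfD he hid hcen hup hw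
    have h11 : ∑ k, κ (xB k) * γD w * κ (yB k) = κ rw' := by
      rw [hrw, map_sum]
      refine Finset.sum_congr rfl fun k _ => ?_
      rw [map_mul, map_mul, hκw]
    have h12 : βD e * κ rw' = 0 := by
      rw [← h11]
      exact hz
    have h13 : βD e = 0 := by
      obtain ⟨v, hv⟩ := h8
      rw [← hv] at h12
      exact (Units.mul_left_eq_zero v).1 h12
    exact (hDq.ker e (fx_mono _ le_top he)).1 h13

end Pool.Agent.PSS.S3.H30
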